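import Pool.Agent.Y503.RB.Def2
import Pool.Agent.Y614.RB.THETA

/-!
`push ξ` is a diffeomorphism onto `pdom ξ`, with inverse `pull ξ`.
-/

set_option autoImplicit false

namespace Pool.Agent.Y275.RB

open scoped ContDiff RealInnerProductSpace Topology
open Pool.Agent.Y503.RB Pool.Agent.Y614.RB Filter

theorem open_pdom {ξ : E4} : IsOpen (pdom ξ) := by
  rw [isOpen_iff_mem_nhds]
  rintro w ⟨h0, h1, h2⟩
  have hn0 : ‖w‖ ≠ 0 := norm_ne_zero_iff.2 h0
  have c1 : ContinuousAt (fun w : E4 => ‖w‖⁻¹ • w) w :=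
    (continuousAt_id.norm.inv₀ hn0).smul continuousAt_id
  have ci : ContinuousAt (inv ξ) (‖w‖⁻¹ • w) := (smooth_inv h1).continuousAt
  have c2' : ContinuousAt (fun w : E4 => inv ξ (‖w‖⁻¹ • w)) w :=
    ContinuousAt.comp (g := inv ξ) (f := fun w : E4 => ‖w‖⁻¹ • w) ci c1
  have c2 : ContinuousAt (fun w : E4 => inv ξ (‖w‖⁻¹ • w) + Real.log ‖w‖ • ξ) w :=
    c2'.add ((continuousAt_id.norm.log hn0).smul continuousAt_const)
  have e0 : ∀ᶠ v in 𝓝 w, v ≠ 0 := continuousAt_id.eventually_ne h0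
  have e1 : ∀ᶠ v in 𝓝 w, ‖v‖⁻¹ • v ≠ ξ := c1.eventually_ne h1
  have e2 : ∀ᶠ v in 𝓝 w, inv ξ (‖v‖⁻¹ • v) + Real.log ‖v‖ • ξ ≠ ξ := c2.eventually_ne h2
  filter_upwards [e0, e1, e2] with v v0 v1 v2
  exact ⟨v0, v1, v2⟩

theorem push_mem {ξ x : E4} (hξ : ‖ξ‖ = 1) (hx : x ≠ ξ) : push ξ x ∈ pdom ξ := by
  refine ⟨?_, ?_, ?_⟩
  · rw [← norm_ne_zero_iff, norm_push hξ hx]
    exact (Real.exp_pos _).ne'
  · rw [unit_push hξ hx]
    exact inv_ne (Y_ne hξ (inner_Y hξ hx))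
  · rw [inv_unit_push hξ hx]
    exact inv_ne hx

theorem pull_ne {ξ w : E4} (hw : w ∈ pdom ξ) : pull ξ w ≠ ξ := by
  unfold pull
  exact inv_ne hw.2.2

theorem push_pull {ξ w : E4} (hξ : ‖ξ‖ = 1) (hw : w ∈ pdom ξ) : push ξ (pull ξ w) = w := by
  obtain ⟨h0, h1, h2⟩ := hw
  have hn0 : ‖w‖ ≠ 0 := norm_ne_zero_iff.2 h0
  have hpos : 0 < ‖w‖ := norm_pos_iff.2 h0
  have hy : ‖‖w‖⁻¹ • w‖ = 1 := by
    rw [norm_smul, norm_inv, norm_norm, inv_mul_cancel₀ hn0]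
  have hY : ⟪inv ξ (‖w‖⁻¹ • w), ξ⟫ = 0 := by
    rw [inner_inv hξ h1]
    unfold ht
    rw [hy]
    simp
  have hξξ : ⟪ξ, ξ⟫ = 1 := by rw [real_inner_self_eq_norm_sq, hξ, one_pow]
  have hii : inv ξ (pull ξ w) = inv ξ (‖w‖⁻¹ • w) + Real.log ‖w‖ • ξ := by
    unfold pull
    exact inv_inv h2
  have hht : ht ξ (pull ξ w) = -Real.log ‖w‖ := by
    have h3 := inner_inv hξ (pull_ne ⟨h0, h1, h2⟩ : pull ξ w ≠ ξ)
    rw [hii, inner_add_left, hY, inner_smul_left, hξξ] at h3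
    simp only [conj_trivial, mul_one, zero_add] at h3
    linarith
  unfold push
  rw [hii, hht, neg_neg, Real.exp_log hpos, neg_smul, add_neg_cancel_right, inv_inv h1, smul_smul,
    mul_inv_cancel₀ hn0, one_smul]

theorem diffeo : St_DIFFEO := by
  intro ξ hξ
  refine ⟨open_pdom, fun x hx => push_mem hξ hx, fun w hw => ⟨pull_ne hw, push_pull hξ hw, ?_⟩, ?_⟩
  · have h := smooth_pull hξ (pull_ne hw)
    rwa [push_pull hξ hw] at h
  · intro x hx
    have h0 : 0 < ‖x - ξ‖ ^ 2 := by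
      have := sub_ne hx
      positivity
    have hp := norm_push hξ hx
    have hht : ht ξ x * ‖x - ξ‖ ^ 2 = 1 - ‖x‖ ^ 2 := by
      unfold ht
      exact div_mul_cancel₀ _ h0.ne'
    have hx0 : 0 ≤ ‖x‖ := norm_nonneg x
    have k1 : ‖push ξ x‖ ≤ 1 ↔ ‖x‖ ≤ 1 := by
      rw [hp, Real.exp_le_one_iff, neg_nonpos]
      constructor
      · intro h
        have h3 := mul_nonneg h h0.le
        rw [hht] at h3
        nlinarith
      · intro h
        have h3 : 0 ≤ ht ξ x * ‖x - ξ‖ ^ 2 := by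
          rw [hht]
          nlinarith
        exact nonneg_of_mul_nonneg_left h3 h0
    have k2 : ‖push ξ x‖ < 1 ↔ ‖x‖ < 1 := by
      rw [hp, Real.exp_lt_one_iff, neg_lt_zero]
      constructor
      · intro h
        have h3 := mul_pos h h0
        rw [hht] at h3
        nlinarith
      · intro h
        have h3 : 0 < ht ξ x * ‖x - ξ‖ ^ 2 := by
          rw [hht]
          nlinarith
        exact (mul_pos_iff_of_pos_right h0).1 h3
    refine ⟨k1, k2, ?_⟩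
    constructor
    · intro h
      have h3 := k1.1 h.le
      have h4 : ¬ ‖x‖ < 1 := fun h5 => absurd (k2.2 h5) (by rw [h]; exact lt_irrefl _)
      exact le_antisymm h3 (not_lt.1 h4)
    · intro h
      have h3 := k1.2 h.le
      have h4 : ¬ ‖push ξ x‖ < 1 := fun h5 => absurd (k2.1 h5) (by rw [h]; exact lt_irrefl _)
      exact le_antisymm h3 (not_lt.1 h4)

end Pool.Agent.Y275.RB
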